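import Pool.Agent.Q240.SD.Stm
import Pool.Agent.Q79.EW.Gn
import Pool.Agent.Y23.F.Hn
import Pool.Agent.Y23.Dm

/-!
# Project SD (helper240): the smoothing operator (JOB SD-CV), proved by helper130

The computation of the transform of a convolution is adapted from `conv_TT` in `Y23/G/Ts4.lean`.
-/

set_option autoImplicit false
set_option maxHeartbeats 2000000

open Complex Filter Topology Set MeasureTheory
open scoped Convolution

namespace Pool.Agent.Q130.SD

open Pool.Agent.Y23 (TT Fa N2 Fa_bdd norm_TT_le N2_nonneg LL_cont)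
open Pool.Agent.Q240.EW (Bump Ps)
open Pool.Agent.Q240.PR (Sm)
open Pool.Agent.Q240.SD

/-- convolution with a bounded function, explicit form -/
lemma conv_expl {b c : ℝ} {f k : ℝ → ℂ} (hf : Fa b f) (hk : Fa c k) {M : ℝ} (hM : ∀ x, ‖k x‖ ≤ M) :
    Fa (b + c) (fun x => ∫ t : ℝ, f t * k (x - t)) ∧
      ∀ w, TT (fun x => ∫ t : ℝ, f t * k (x - t)) w = TT f w * TT k w := by
  set g : ℝ → ℂ := fun x => ∫ t : ℝ, f t * k (x - t) with hg
  have hfi := hf.integrable
  have hki := hk.integrable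
  have hgc : g = (f ⋆[ContinuousLinearMap.mul ℂ ℂ, volume] k) := rfl
  have hgi : Integrable g := by
    rw [hgc]
    exact hfi.integrable_convolution _ hki
  refine ⟨Fa_bdd hgi.aestronglyMeasurable (C := ∫ t : ℝ, ‖f t‖ * M) (fun x => ?_) (fun x hx => ?_),
    fun w => ?_⟩
  · refine norm_integral_le_of_norm_le (hfi.norm.mul_const M) (Eventually.of_forall fun t => ?_)
    rw [norm_mul]
    exact mul_le_mul_of_nonneg_left (hM _) (norm_nonneg _)
  · simp only [hg]
    have : (fun t : ℝ => f t * k (x - t)) = fun _ => 0 := by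
      funext t
      by_cases ht : b < |t|
      · rw [hf.2 t ht, zero_mul]
      · rw [not_lt] at ht
        have h1 : c < |x - t| := by
          have := abs_sub_abs_le_abs_sub x t
          linarith
        rw [hk.2 _ h1, mul_zero]
    rw [this, integral_zero]
  · have hfe : Integrable (fun t : ℝ => f t * cexp (w * t)) := hf.integrable_mul (by fun_prop)
    have hke : Integrable (fun t : ℝ => k t * cexp (w * t)) := hk.integrable_mul (by fun_prop)
    have h1 := integral_convolution (ContinuousLinearMap.mul ℂ ℂ) hfe hke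
    rw [ContinuousLinearMap.mul_apply'] at h1
    unfold TT
    rw [← h1]
    refine integral_congr_ae (Eventually.of_forall fun x => ?_)
    simp only [hg]
    rw [convolution_def, ← integral_mul_const]
    refine integral_congr_ae (Eventually.of_forall fun t => ?_)
    simp only [ContinuousLinearMap.mul_apply']
    have e : cexp (w * (x : ℂ)) = cexp (w * t) * cexp (w * ((x - t : ℝ) : ℂ)) := by
      rw [← Complex.exp_add]; congr 1; push_cast; ring
    rw [e]
    ring

/-- the scaled kernel -/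
noncomputable def ker (ψ : ℝ → ℝ) (T : ℝ) (x : ℝ) : ℂ := ((T * ψ (T * x) : ℝ) : ℂ)

lemma ker_sm {ψ : ℝ → ℝ} (hψ : Bump ψ) {T : ℝ} (hT : 0 < T) : Sm (1 / T) (ker ψ T) := by
  refine ⟨fun k => ?_, fun x hx => ?_⟩
  · have h1 : ContDiff ℝ k fun x : ℝ => T * ψ (T * x) :=
      contDiff_const.mul ((hψ.smooth k).comp (contDiff_const.mul contDiff_id))
    exact Complex.ofRealCLM.contDiff.comp h1
  · have : 1 ≤ |T * x| := by
      rw [abs_mul, abs_of_pos hT]
      rw [div_le_iff₀ hT] at hx
      linarith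
    change ((T * ψ (T * x) : ℝ) : ℂ) = 0
    rw [hψ.supp _ this, mul_zero, Complex.ofReal_zero]

lemma ker_TT {ψ : ℝ → ℝ} {T : ℝ} (hT : 0 < T) (w : ℂ) : TT (ker ψ T) w = Ps ψ (w / T) := by
  have hTC : (T : ℂ) ≠ 0 := by exact_mod_cast hT.ne'
  have h := MeasureTheory.Measure.integral_comp_mul_left
    (fun y : ℝ => (ψ y : ℂ) * cexp (w / T * y)) T
  unfold Ps TT
  have e1 : (fun x : ℝ => ker ψ T x * cexp (w * x)) = fun x : ℝ => (T : ℂ) *
      ((ψ (T * x) : ℂ) * cexp (w / T * ((T * x : ℝ) : ℂ))) := by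
    funext x
    have e2 : w / T * ((T * x : ℝ) : ℂ) = w * x := by
      push_cast
      field_simp
    rw [e2, ker]
    push_cast
    ring
  rw [e1, integral_const_mul, h, abs_of_pos (inv_pos.2 hT), Complex.real_smul, ← mul_assoc]
  push_cast
  rw [mul_inv_cancel₀ hTC, one_mul]

theorem cv : S_Cv := by
  intro ψ T hψ hT
  have hsm := ker_sm hψ hT
  have hkF : Fa (1 / T) (ker ψ T) := Pool.Agent.Q214.PR.Sm.fa hsm
  have hkc : Continuous (ker ψ T) := (hsm.1 0).continuous
  obtain ⟨M, hM⟩ := (Pool.Agent.Q214.PR.Sm.hcs hsm).exists_bound_of_continuous hkc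
  have hSg : ∀ g : ℝ → ℂ, Sg ψ T g = fun x => ∫ t : ℝ, g t * ker ψ T (x - t) := fun g => rfl
  have h1 : ∀ (a : ℝ) (g : ℝ → ℂ) (w : ℂ), 0 < a → Fa a g →
      TT (Sg ψ T g) w = Ps ψ (w / T) * TT g w := by
    intro a g w _ hg
    rw [hSg, (conv_expl hg hkF hM).2 w, ker_TT hT, mul_comm]
  refine ⟨h1, ?_, ?_⟩
  · intro a g ha hg
    have hF : Fa (a + 1 / T) (Sg ψ T g) := by
      rw [hSg]
      exact (conv_expl hg hkF hM).1
    refine ⟨hF, ?_, fun k hk => absurd hk not_top_lt⟩
    change Integrable (fun v : ℝ => Real.log (3 + |v|) * ‖TT (Sg ψ T g) (v * I)‖ ^ 2)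
    obtain ⟨C, hC, hP⟩ := Pool.Agent.Q79.EW.Ps_decay hψ
    set A : ℝ := 2 * a * N2 g with hA
    have hA0 : 0 ≤ A := mul_nonneg (by linarith) (N2_nonneg g)
    set κ : ℝ := min 1 (1 / T) with hκ
    have hκ0 : 0 < κ := lt_min one_pos (by positivity)
    refine Integrable.mono' (g := fun v : ℝ => 3 * C ^ 2 * A / κ ^ 3 * (1 + v ^ 2)⁻¹)
      (integrable_inv_one_add_sq.const_mul _) (LL_cont hF).aestronglyMeasurable
      (Eventually.of_forall fun v => ?_)
    have hlog0 : 0 ≤ Real.log (3 + |v|) := Real.log_nonneg (by linarith [abs_nonneg v])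
    have hlog : Real.log (3 + |v|) ≤ 3 * (1 + |v|) := by
      have h2 := Real.log_le_sub_one_of_pos (show 0 < 3 + |v| by positivity)
      linarith [abs_nonneg v]
    have hTT : ‖TT g (v * I)‖ ^ 2 ≤ A := by
      have h2 := norm_TT_le ha hg (v * I)
      have e : ((v : ℂ) * I).re = 0 := by simp
      rw [e, abs_zero, mul_zero, Real.exp_zero, mul_one] at h2
      exact h2
    have hu : 1 ≤ 1 + |v| := by linarith [abs_nonneg v]
    set u : ℝ := 1 + |v| with hu'
    have hnorm : ‖(v * I : ℂ) / T‖ = |v| / T := by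
      rw [norm_div, norm_mul, Complex.norm_I, mul_one, Complex.norm_real, Complex.norm_real,
        Real.norm_eq_abs, Real.norm_eq_abs, abs_of_pos hT]
    have hre : |((v * I : ℂ) / T).re| ≤ 1 := by
      have e : ((v * I : ℂ) / T).re = 0 := by
        rw [Complex.div_ofReal_re]
        simp
      rw [e]
      norm_num
    set q : ℝ := 1 + |v| / T with hq
    have hq1 : 1 ≤ q := by
      have : 0 ≤ |v| / T := by positivity
      linarith
    have hqu : κ * u ≤ q := by
      have e1 : κ ≤ 1 := min_le_left _ _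
      have e2 : κ ≤ 1 / T := min_le_right _ _
      have e3 : κ * |v| ≤ |v| / T := by
        have := mul_le_mul_of_nonneg_right e2 (abs_nonneg v)
        calc κ * |v| ≤ 1 / T * |v| := this
          _ = |v| / T := by ring
      rw [hu', hq]
      nlinarith
    have hκu : 0 < κ * u := mul_pos hκ0 (by linarith)
    have hPb : ‖Ps ψ ((v * I : ℂ) / T)‖ ^ 2 ≤ C ^ 2 / (κ * u) ^ 3 := by
      have h2 := hP _ hre
      rw [hnorm] at h2
      have h3 : ‖Ps ψ ((v * I : ℂ) / T)‖ ^ 2 ≤ (C / q ^ 6) ^ 2 :=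
        pow_le_pow_left₀ (norm_nonneg _) h2 2
      refine h3.trans ?_
      rw [div_pow, ← pow_mul]
      refine div_le_div_of_nonneg_left (by positivity) (by positivity) ?_
      calc (κ * u) ^ 3 ≤ q ^ 3 := pow_le_pow_left₀ hκu.le hqu 3
        _ ≤ q ^ (6 * 2) := pow_le_pow_right₀ hq1 (by norm_num)
    rw [h1 a g _ ha hg, Real.norm_eq_abs, abs_of_nonneg (mul_nonneg hlog0 (sq_nonneg _)), norm_mul,
      mul_pow]
    have h4 : ‖Ps ψ ((v * I : ℂ) / T)‖ ^ 2 * ‖TT g (v * I)‖ ^ 2 ≤ C ^ 2 / (κ * u) ^ 3 * A :=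
      mul_le_mul hPb hTT (by positivity) (by positivity)
    have h5 : Real.log (3 + |v|) * (‖Ps ψ ((v * I : ℂ) / T)‖ ^ 2 * ‖TT g (v * I)‖ ^ 2) ≤
        3 * u * (C ^ 2 / (κ * u) ^ 3 * A) :=
      mul_le_mul hlog h4 (by positivity) (by positivity)
    refine h5.trans ?_
    have hu0 : 0 < u := by linarith
    have e6 : 3 * u * (C ^ 2 / (κ * u) ^ 3 * A) = 3 * C ^ 2 * A / κ ^ 3 * (u ^ 2)⁻¹ := by
      field_simp
    rw [e6]
    refine mul_le_mul_of_nonneg_left ?_ (by positivity)
    refine inv_anti₀ (by positivity) ?_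
    rw [hu']
    nlinarith [abs_nonneg v, sq_abs v]
  · intro a m c g _ hg
    funext x
    show ∫ y : ℝ, (∑ i, c i * g i y) * ker ψ T (x - y) =
      ∑ i, c i * ∫ y : ℝ, g i y * ker ψ T (x - y)
    have e : (fun y : ℝ => (∑ i, c i * g i y) * ker ψ T (x - y)) =
        fun y : ℝ => ∑ i, c i * (g i y * ker ψ T (x - y)) := by
      funext y
      rw [Finset.sum_mul]
      refine Finset.sum_congr rfl fun i _ => ?_
      ring
    rw [e, integral_finsetSum]
    · refine Finset.sum_congr rfl fun i _ => ?_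
      rw [integral_const_mul]
    · intro i _
      exact ((hg i).integrable_mul (hkc.comp (continuous_const.sub continuous_id))).const_mul _

end Pool.Agent.Q130.SD
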